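import Pool.Agent.N859.P4.Defs
import Pool.Agent.N859.G4.Main

/-! Densities of the kinds of non-tempered places, `PGSp(4)`. -/

set_option autoImplicit false

namespace Pool.Agent.N859.P4

open NumberField IsDedekindDomain Filter Topology
open Pool.Agent.N859.G4
open Pool.Agent.H921R2.TatePole (nm Lam prime_sum_bdd nm_summable Lam_tendsto Bdd)

variable {K : Type*} [Field K] [NumberField K] {S : Finset (HeightOneSpectrum (𝓞 K))}

/-! ### Local part -/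

lemma spin_one (a b : ℂ) : spin a b 1 = (a + a⁻¹) + (b + b⁻¹) := by
  unfold spin; ring

lemma std_one {a b : ℂ} (ha : a ≠ 0) (hb : b ≠ 0) : std a b 1 = 1 + (a + a⁻¹) * (b + b⁻¹) := by
  unfold std; field_simp; ring

lemma dich {b c : ℂ} {τ : Equiv.Perm (Fin 4)}
    (hτ : ∀ i, (![b, c, c⁻¹, b⁻¹] : Fin 4 → ℂ) (τ i) = io ((![b, c, c⁻¹, b⁻¹] : Fin 4 → ℂ) i)) :
    ((starRingEnd ℂ) (b + b⁻¹) = b + b⁻¹ ∧ (starRingEnd ℂ) (c + c⁻¹) = c + c⁻¹) ∨
      (starRingEnd ℂ) (b + b⁻¹) = c + c⁻¹ := by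
  have key : ∀ z ∈ ({b, c, c⁻¹, b⁻¹} : Set ℂ), ∀ w, w = io z →
      w ∈ ({b, c, c⁻¹, b⁻¹} : Set ℂ) →
      (starRingEnd ℂ) (z + z⁻¹) = b + b⁻¹ ∨ (starRingEnd ℂ) (z + z⁻¹) = c + c⁻¹ := by
    intro z _ w hw hwm
    have h1 : (starRingEnd ℂ) (z + z⁻¹) = w + w⁻¹ := by
      rw [hw]; unfold io
      rw [map_add, map_inv₀, inv_inv, add_comm]
    rw [h1]
    simp only [Set.mem_insert_iff, Set.mem_singleton_iff] at hwm
    rcases hwm with h | h | h | h
    · left; rw [h]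
    · right; rw [h]
    · right; rw [h, inv_inv, add_comm]
    · left; rw [h, inv_inv, add_comm]
  have mem : ∀ i : Fin 4, (![b, c, c⁻¹, b⁻¹] : Fin 4 → ℂ) i ∈ ({b, c, c⁻¹, b⁻¹} : Set ℂ) := by
    intro i
    fin_cases i <;> simp
  have kb := key b (by simp) _ rfl (by
    have h := hτ 0
    have h2 := mem (τ 0)
    rw [h] at h2
    simpa using h2)
  have kc := key c (by simp) _ rfl (by
    have h := hτ 1
    have h2 := mem (τ 1)
    rw [h] at h2
    simpa using h2)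
  rcases kb with h | h
  · rcases kc with h' | h'
    · -- conj C = B, conj B = B
      left
      refine ⟨h, ?_⟩
      have h3 := congrArg (starRingEnd ℂ) h'
      rw [Complex.conj_conj, h] at h3
      rw [h', h3]
    · exact Or.inl ⟨h, h'⟩
  · exact Or.inr h

/-- `AB` is real -/
lemma prod_real {b c : ℂ} {τ : Equiv.Perm (Fin 4)}
    (hτ : ∀ i, (![b, c, c⁻¹, b⁻¹] : Fin 4 → ℂ) (τ i) = io ((![b, c, c⁻¹, b⁻¹] : Fin 4 → ℂ) i)) :
    ∃ p : ℝ, (b + b⁻¹) * (c + c⁻¹) = p := by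
  rw [← Complex.conj_eq_iff_real]
  rcases dich hτ with ⟨h1, h2⟩ | h
  · rw [map_mul, h1, h2]
  · rw [← h, map_mul, Complex.conj_conj, mul_comm]

/-- a real parameter -/
lemma real_param {z : ℂ} (him : z.im = 0) : ∃ r : ℝ, z + z⁻¹ = r ∧ |r| = ‖z‖ + ‖z‖⁻¹ := by
  obtain ⟨y, rfl⟩ : ∃ y : ℝ, z = y := ⟨z.re, by apply Complex.ext <;> simp [him]⟩
  refine ⟨y + y⁻¹, by push_cast; rfl, ?_⟩
  rw [Complex.norm_real, Real.norm_eq_abs, ← abs_inv]
  rcases le_total 0 y with h | h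
  · rw [abs_of_nonneg h, abs_of_nonneg (inv_nonneg.2 h), abs_of_nonneg (add_nonneg h (inv_nonneg.2 h))]
  · rw [abs_of_nonpos h, abs_of_nonpos (inv_nonpos.2 h), abs_of_nonpos (add_nonpos h (inv_nonpos.2 h))]
    ring

/-- the inequality behind the bound for real parameters -/
lemma real_large {A B : ℂ} {r T κ : ℝ} (hA : A = r) (hT : 2 ≤ T) (hr : T ≤ |r|) (hκ : -T ^ 2 ≤ κ) :
    T ^ 2 - κ ≤ T * ‖A + B‖ + ‖A * B + κ‖ := by
  have e1 : A * (A + B) - (A * B + κ) = ((r ^ 2 - κ : ℝ) : ℂ) := by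
    rw [hA]; push_cast; ring
  have e2 : r ^ 2 - κ ≤ |r| * ‖A + B‖ + ‖A * B + κ‖ := by
    calc r ^ 2 - κ ≤ |r ^ 2 - κ| := le_abs_self _
      _ = ‖A * (A + B) - (A * B + κ)‖ := by rw [e1, Complex.norm_real, Real.norm_eq_abs]
      _ ≤ ‖A * (A + B)‖ + ‖A * B + κ‖ := norm_sub_le _ _
      _ = _ := by rw [norm_mul, hA, Complex.norm_real, Real.norm_eq_abs]
  rw [← sq_abs] at e2
  set X := |r|
  have hx0 := norm_nonneg (A + B)
  have hy0 := norm_nonneg (A * B + (κ : ℂ))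
  rcases le_total ‖A + B‖ (X + T) with h6 | h6
  · nlinarith [mul_nonneg (sub_nonneg.2 hr) (sub_nonneg.2 h6)]
  · nlinarith [mul_le_mul_of_nonneg_left h6 (by linarith : (0 : ℝ) ≤ T), mul_le_mul_of_nonneg_left hr
      (by linarith : (0 : ℝ) ≤ T)]

/-! ### Global part -/

/-- the terms of the logarithm of the zeta function -/
lemma zeta_upper : (∀ x : ℝ, 1 < x → Summable fun y : PL S × ℕ => 1 / ((y.2 : ℝ) + 1) * (wt y.1 x) ^ (y.2 + 1)) ∧
    ∃ C : ℝ, ∀ᶠ x : ℝ in 𝓝[>] 1,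
      ∑' y : PL S × ℕ, 1 / ((y.2 : ℝ) + 1) * (wt y.1 x) ^ (y.2 + 1) ≤ Lam x + C := by
  have half : ∀ (v : PL S) {x : ℝ}, 1 < x → wt v x ≤ 1 / 2 := fun v x hx =>
    Pool.Agent.H921R2.TatePole.nm_rpow_le_half v.1 hx.le
  have hsum : ∀ x : ℝ, 1 < x →
      Summable fun y : PL S × ℕ => 1 / ((y.2 : ℝ) + 1) * (wt y.1 x) ^ (y.2 + 1) := by
    intro x hx
    have h1 : Summable fun y : PL S × ℕ => wt y.1 x * (1 / 2 : ℝ) ^ y.2 :=
      (summable_wt hx).mul_of_nonneg (summable_geometric_of_lt_one (by norm_num) (by norm_num))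
        (fun v => wt_nonneg v x) (fun n => by positivity)
    refine Summable.of_nonneg_of_le (fun y => ?_) (fun y => ?_) h1
    · have := wt_nonneg y.1 x
      positivity
    · have h0 := wt_nonneg y.1 x
      have h2 : (wt y.1 x) ^ y.2 ≤ (1 / 2 : ℝ) ^ y.2 := pow_le_pow_left₀ h0 (half y.1 hx) _
      have h3 : 1 / ((y.2 : ℝ) + 1) ≤ 1 := by
        rw [div_le_one (by positivity)]
        have : (0 : ℝ) ≤ y.2 := Nat.cast_nonneg _
        linarith
      calc 1 / ((y.2 : ℝ) + 1) * (wt y.1 x) ^ (y.2 + 1) ≤ 1 * (wt y.1 x) ^ (y.2 + 1) :=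
            mul_le_mul_of_nonneg_right h3 (by positivity)
        _ = wt y.1 x * (wt y.1 x) ^ y.2 := by ring
        _ ≤ _ := mul_le_mul_of_nonneg_left h2 h0
  refine ⟨hsum, ?_⟩
  obtain ⟨C, hC⟩ := prime_sum_bdd (K := K)
  refine ⟨C + Pool.Agent.H921R2.TatePole.CK K, ?_⟩
  filter_upwards [hC, self_mem_nhdsWithin] with x hx hx1
  have hx1 : (1 : ℝ) < x := hx1
  have hs := hsum x hx1
  rw [hs.tsum_prod]
  have h1 : ∀ v : PL S, ∑' n : ℕ, 1 / ((n : ℝ) + 1) * (wt v x) ^ (n + 1) ≤ wt v x + (wt v x) ^ 2 := by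
    intro v
    have h0 := wt_nonneg v x
    have h2 := half v hx1
    have h3 := Real.hasSum_pow_div_log_of_abs_lt_one (x := wt v x) (by rw [abs_of_nonneg h0]; linarith)
    have h4 : ∑' n : ℕ, 1 / ((n : ℝ) + 1) * (wt v x) ^ (n + 1) = -Real.log (1 - wt v x) := by
      rw [← h3.tsum_eq]
      refine tsum_congr fun n => ?_
      ring
    rw [h4]
    exact Pool.Agent.H921R2.TatePole.neg_log_one_sub_le h0 h2
  have s2 : Summable fun v : PL S => (wt v x) ^ 2 := by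
    refine Summable.of_nonneg_of_le (fun v => by positivity) (fun v => ?_) (summable_wt hx1)
    have h0 := wt_nonneg v x
    have h2 := half v hx1
    nlinarith
  calc ∑' v : PL S, ∑' n : ℕ, 1 / ((n : ℝ) + 1) * (wt v x) ^ (n + 1)
      ≤ ∑' v : PL S, (wt v x + (wt v x) ^ 2) :=
        hs.prod.tsum_le_tsum h1 ((summable_wt hx1).add s2)
    _ = ∑' v : PL S, wt v x + ∑' v : PL S, (wt v x) ^ 2 := (summable_wt hx1).tsum_add s2
    _ ≤ ∑' v : HeightOneSpectrum (𝓞 K), ((nm v : ℕ) : ℝ) ^ (-x) +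
        ∑' v : HeightOneSpectrum (𝓞 K), ((nm v : ℕ) : ℝ) ^ (-(2 : ℝ)) := by
        refine add_le_add ?_ ?_
        · exact tsum_comp_le_tsum_of_inj (nm_summable (K := K) hx1) (fun v => by positivity)
            (i := fun v : PL S => v.1) Subtype.val_injective
        · have s3 := nm_summable (K := K) (x := 2) (by norm_num)
          refine le_trans ?_ (tsum_comp_le_tsum_of_inj s3 (fun v => by positivity)
            (i := fun v : PL S => v.1) Subtype.val_injective)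
          refine s2.tsum_le_tsum (fun v => ?_) (s3.comp_injective (i := fun v : PL S => v.1)
            Subtype.val_injective)
          change (((nm v.1 : ℕ) : ℝ) ^ (-x)) ^ 2 ≤ ((nm v.1 : ℕ) : ℝ) ^ (-(2 : ℝ))
          rw [← Real.rpow_natCast, ← Real.rpow_mul (by positivity)]
          refine Real.rpow_le_rpow_of_exponent_le ?_ ?_
          · have := Pool.Agent.H921R2.TatePole.two_le_nm v.1
            exact_mod_cast (by omega : 1 ≤ nm v.1)
          · push_cast; linarith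
    _ ≤ Lam x + (C + Pool.Agent.H921R2.TatePole.CK K) := by
        have := (abs_le.1 hx).2
        unfold Pool.Agent.H921R2.TatePole.CK
        linarith

variable {a b : PL S → ℂ}

/-- the second moment of `std + δ` -/
lemma shifted (h : GenericPGSp4 a b) (δ : ℝ) :
    (∀ x : ℝ, 1 < x → Summable fun v : PL S => ‖std (a v) (b v) 1 + δ‖ ^ 2 * wt v x) ∧
    ∃ C : ℝ, ∀ᶠ x : ℝ in 𝓝[>] 1,
      ∑' v : PL S, ‖std (a v) (b v) 1 + δ‖ ^ 2 * wt v x ≤ (1 + δ ^ 2) * Lam x + C := by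
  -- the three series
  set t : PL S → ℕ → ℂ := fun v => std (a v) (b v) with ht
  let E : ℝ → PL S × ℕ → ℝ := fun x y => (t y.1 (y.2 + 1)).re / ((y.2 : ℝ) + 1) * (wt y.1 x) ^ (y.2 + 1)
  let Q : ℝ → PL S × ℕ → ℝ := fun x y => 1 / ((y.2 : ℝ) + 1) * (wt y.1 x) ^ (y.2 + 1)
  have sE : ∀ x : ℝ, 1 < x → Summable (E x) := by
    intro x hx
    refine Summable.of_norm_bounded (h.summable x hx) fun y => ?_
    have h0 := wt_nonneg y.1 x
    rw [Real.norm_eq_abs, abs_mul, abs_div, abs_of_nonneg (by positivity : (0 : ℝ) ≤ (y.2 : ℝ) + 1),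
      abs_of_nonneg (by positivity : (0 : ℝ) ≤ wt y.1 x ^ (y.2 + 1))]
    refine mul_le_mul_of_nonneg_right ?_ (by positivity)
    exact div_le_div_of_nonneg_right (Complex.abs_re_le_norm _) (by positivity)
  have sG : ∀ x : ℝ, 1 < x → Summable (G t x) := fun x hx => h.rsStd.summable x hx
  have sQ : ∀ x : ℝ, 1 < x → Summable (Q x) := (zeta_upper (S := S)).1
  have split : ∀ (x : ℝ) (y : PL S × ℕ), ‖t y.1 (y.2 + 1) + δ‖ ^ 2 / ((y.2 : ℝ) + 1) *
      (wt y.1 x) ^ (y.2 + 1) = G t x y + 2 * δ * E x y + δ ^ 2 * Q x y := by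
    intro x y
    have e1 : ‖t y.1 (y.2 + 1) + (δ : ℂ)‖ ^ 2 =
        ‖t y.1 (y.2 + 1)‖ ^ 2 + 2 * δ * (t y.1 (y.2 + 1)).re + δ ^ 2 := by
      rw [← Complex.normSq_eq_norm_sq, ← Complex.normSq_eq_norm_sq, Complex.normSq_apply,
        Complex.normSq_apply]
      simp only [Complex.add_re, Complex.add_im, Complex.ofReal_re, Complex.ofReal_im]
      ring
    rw [e1]
    simp only [G, E, Q]
    change _ = ‖t y.1 (y.2 + 1)‖ ^ 2 / ((y.2 : ℝ) + 1) * (wt y.1 x) ^ (y.2 + 1) + _ + _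
    ring
  have sH : ∀ x : ℝ, 1 < x → Summable fun y : PL S × ℕ =>
      ‖t y.1 (y.2 + 1) + δ‖ ^ 2 / ((y.2 : ℝ) + 1) * (wt y.1 x) ^ (y.2 + 1) := by
    intro x hx
    refine (((sG x hx).add ((sE x hx).mul_left (2 * δ))).add ((sQ x hx).mul_left (δ ^ 2))).congr ?_
    intro y
    exact (split x y).symm
  have comp : ∀ (x : ℝ) (v : PL S), ‖t v 1 + δ‖ ^ 2 * wt v x =
      ‖t (v, 0).1 ((v, 0) : PL S × ℕ).2.succ + δ‖ ^ 2 / ((((v, 0) : PL S × ℕ).2 : ℝ) + 1) *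
        (wt ((v, 0) : PL S × ℕ).1 x) ^ (((v, 0) : PL S × ℕ).2 + 1) := by
    intro x v
    norm_num
  refine ⟨fun x hx => ?_, ?_⟩
  · refine ((sH x hx).comp_injective (inj_zero (S := S))).congr fun v => ?_
    exact (comp x v).symm
  · obtain ⟨C1, hC1⟩ := (show ∃ C : ℝ, ∀ᶠ x : ℝ in 𝓝[>] 1, ∑' y, G t x y ≤ Lam x + C from by
      obtain ⟨A, hA, hAs⟩ := h.rsStd.pole
      have hc : ContinuousAt (fun x : ℝ => ‖A (x : ℂ)‖) 1 := by
        refine ContinuousAt.norm ?_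
        exact ContinuousAt.comp (f := fun x : ℝ => (x : ℂ)) (x := 1)
          (by simpa using hA.continuousAt) Complex.continuous_ofReal.continuousAt
      have hb : ∀ᶠ x : ℝ in 𝓝[>] 1, ‖A (x : ℂ)‖ < ‖A ((1 : ℝ) : ℂ)‖ + 1 :=
        (hc.eventually (gt_mem_nhds (lt_add_one _))).filter_mono nhdsWithin_le_nhds
      refine ⟨Real.log (‖A ((1 : ℝ) : ℂ)‖ + 1), ?_⟩
      filter_upwards [hb, self_mem_nhdsWithin] with x hx hx1
      have hx1 : (1 : ℝ) < x := hx1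
      have hx0 : 0 < x - 1 := by linarith
      have e1 := hAs (x : ℂ) (by simpa using hx1)
      rw [logRS_real, ← Complex.ofReal_exp] at e1
      have e2 : A (x : ℂ) = (((x - 1) * Real.exp (∑' y, G t x y) : ℝ) : ℂ) := by
        rw [e1]; push_cast; ring
      rw [e2, Complex.norm_real, Real.norm_of_nonneg (by positivity)] at hx
      have e3 := Real.log_lt_log (by positivity) hx
      rw [Real.log_mul (by positivity) (Real.exp_pos _).ne', Real.log_exp] at e3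
      have e4 : Lam x = -Real.log (x - 1) := by
        unfold Lam; rw [one_div, Real.log_inv]
      rw [e4]
      linarith)
    obtain ⟨C2, hC2⟩ := (show ∃ C : ℝ, ∀ᶠ x : ℝ in 𝓝[>] 1, |∑' y, E x y| ≤ C from by
      obtain ⟨A, hA, hA1, hAs⟩ := h.stdL
      have hc : Tendsto (fun x : ℝ => Real.log ‖A (x : ℂ)‖) (𝓝[>] 1) (𝓝 (Real.log ‖A 1‖)) := by
        have h1 : ContinuousAt (fun x : ℝ => ‖A (x : ℂ)‖) 1 := by
          refine ContinuousAt.norm ?_
          exact ContinuousAt.comp (f := fun x : ℝ => (x : ℂ)) (x := 1)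
            (by simpa using hA.continuousAt) Complex.continuous_ofReal.continuousAt
        have h2 : Tendsto (fun x : ℝ => ‖A (x : ℂ)‖) (𝓝[>] 1) (𝓝 ‖A 1‖) := by
          have := h1.tendsto
          simp only [Complex.ofReal_one] at this
          exact this.mono_left nhdsWithin_le_nhds
        exact h2.log (norm_ne_zero_iff.2 hA1)
      have hB : ∀ᶠ x : ℝ in 𝓝[>] 1, |Real.log ‖A (x : ℂ)‖| < |Real.log ‖A 1‖| + 1 :=
        hc.abs.eventually (gt_mem_nhds (lt_add_one _))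
      refine ⟨|Real.log ‖A 1‖| + 1, ?_⟩
      filter_upwards [hB, self_mem_nhdsWithin] with x hx hx1
      have hx1 : (1 : ℝ) < x := hx1
      have e1 := hAs (x : ℂ) (by simpa using hx1)
      have e2 : Real.log ‖A (x : ℂ)‖ = (logL t (x : ℂ)).re := by
        rw [e1, Complex.norm_exp, Real.log_exp]
      have e3 : (logL t (x : ℂ)).re = ∑' y, E x y := by
        have hsC : Summable fun y : PL S × ℕ => t y.1 (y.2 + 1) / ((y.2 : ℂ) + 1) *
            (((Nm y.1.1 : ℕ) : ℂ) ^ (-(x : ℂ))) ^ (y.2 + 1) := by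
          refine Summable.of_norm ((h.summable x hx1).congr fun y => ?_)
          rw [norm_mul, norm_div, norm_pow]
          have a1 : ‖((y.2 : ℂ) + 1)‖ = (y.2 : ℝ) + 1 := by
            have : ((y.2 : ℂ) + 1) = (((y.2 : ℝ) + 1 : ℝ) : ℂ) := by push_cast; rfl
            rw [this, Complex.norm_real, Real.norm_of_nonneg (by positivity)]
          have a2 : ‖((Nm y.1.1 : ℕ) : ℂ) ^ (-(x : ℂ))‖ = ((Nm y.1.1 : ℕ) : ℝ) ^ (-x) := by
            have : (((Nm y.1.1 : ℕ) : ℂ) ^ (-(x : ℂ))) = ((((Nm y.1.1 : ℕ) : ℝ) ^ (-x) : ℝ) : ℂ) := by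
              rw [Complex.ofReal_cpow (by positivity)]; push_cast; rfl
            rw [this, Complex.norm_real, Real.norm_of_nonneg (by positivity)]
          rw [a1, a2]
        unfold logL
        rw [Complex.re_tsum hsC]
        refine tsum_congr fun y => ?_
        have a2 : (((Nm y.1.1 : ℕ) : ℂ) ^ (-(x : ℂ))) ^ (y.2 + 1) = (((wt y.1 x) ^ (y.2 + 1) : ℝ) : ℂ) := by
          unfold wt
          rw [Complex.ofReal_pow, Complex.ofReal_cpow (by positivity)]; push_cast; rfl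
        have a3 : t y.1 (y.2 + 1) / ((y.2 : ℂ) + 1) = t y.1 (y.2 + 1) / (((y.2 : ℝ) + 1 : ℝ) : ℂ) := by
          push_cast; rfl
        rw [a2, a3, Complex.re_mul_ofReal, Complex.div_ofReal_re]
      rw [← e3, ← e2]
      exact hx.le)
    obtain ⟨C3, hC3⟩ := (zeta_upper (S := S)).2
    refine ⟨C1 + 2 * |δ| * C2 + δ ^ 2 * C3, ?_⟩
    filter_upwards [hC1, hC2, hC3, self_mem_nhdsWithin] with x h1 h2 h3 hx1
    have hx1 : (1 : ℝ) < x := hx1
    have e5 : ∑' v : PL S, ‖t v 1 + δ‖ ^ 2 * wt v x ≤ ∑' y : PL S × ℕ,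
        ‖t y.1 (y.2 + 1) + δ‖ ^ 2 / ((y.2 : ℝ) + 1) * (wt y.1 x) ^ (y.2 + 1) := by
      have := tsum_comp_le_tsum_of_inj (sH x hx1) (fun y => by
        have := wt_nonneg y.1 x
        positivity) (inj_zero (S := S))
      refine le_trans (le_of_eq ?_) this
      exact tsum_congr fun v => comp x v
    have e6 : ∑' y : PL S × ℕ, ‖t y.1 (y.2 + 1) + δ‖ ^ 2 / ((y.2 : ℝ) + 1) * (wt y.1 x) ^ (y.2 + 1) =
        ∑' y, G t x y + 2 * δ * ∑' y, E x y + δ ^ 2 * ∑' y, Q x y := by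
      rw [tsum_congr (split x), ((sG x hx1).add ((sE x hx1).mul_left (2 * δ))).tsum_add
        ((sQ x hx1).mul_left (δ ^ 2)), (sG x hx1).tsum_add ((sE x hx1).mul_left (2 * δ)),
        tsum_mul_left, tsum_mul_left]
    have e7 : 2 * δ * ∑' y, E x y ≤ 2 * |δ| * C2 := by
      calc 2 * δ * ∑' y, E x y ≤ |2 * δ * ∑' y, E x y| := le_abs_self _
        _ = 2 * |δ| * |∑' y, E x y| := by rw [abs_mul, abs_mul, abs_of_pos (by norm_num : (0 : ℝ) < 2)]
        _ ≤ _ := mul_le_mul_of_nonneg_left h2 (by positivity)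
    have e8 : δ ^ 2 * ∑' y, Q x y ≤ δ ^ 2 * (Lam x + C3) :=
      mul_le_mul_of_nonneg_left h3 (by positivity)
    linarith

/-- Markov's inequality -/
lemma share_le (h : GenericPGSp4 a b) {P : PL S → Prop} {c d : ℝ} (δ : ℝ) (hc : 0 ≤ c) (hd : 0 ≤ d)
    (hP : ∀ v, P v → 1 ≤ c * ‖spin (a v) (b v) 1‖ ^ 2 + d * ‖std (a v) (b v) 1 + δ‖ ^ 2) {ε : ℝ}
    (hε : 0 < ε) : ∀ᶠ x : ℝ in 𝓝[>] 1, share P x ≤ (c + d * (1 + δ ^ 2)) + ε := by
  classical
  obtain ⟨C1, hC1⟩ := moment_le h.rsSpin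
  obtain ⟨sh, C2, hC2⟩ := shifted h δ
  obtain ⟨D, hD⟩ := Z_lower (S := S)
  filter_upwards [hC1, hC2, hD, Z_pos (S := S), (Z_tendsto (S := S)).eventually_ge_atTop
    ((c * (D + C1) + d * ((1 + δ ^ 2) * D + C2)) / ε), self_mem_nhdsWithin] with x h1 h2 h3 hZ h4 hx1
  have hx1 : (1 : ℝ) < x := hx1
  rw [share_eq, div_le_iff₀ hZ]
  have s1 := summable_one h.rsSpin hx1
  have s2 := sh x hx1
  have h5 : c * (D + C1) + d * ((1 + δ ^ 2) * D + C2) ≤ ε * Z S x := by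
    rw [div_le_iff₀ hε] at h4
    linarith
  calc ∑' v : PL S, (if P v then wt v x else 0)
      ≤ ∑' v : PL S, (c * (‖spin (a v) (b v) 1‖ ^ 2 * wt v x) +
          d * (‖std (a v) (b v) 1 + δ‖ ^ 2 * wt v x)) := by
        refine (summable_if hx1).tsum_le_tsum (fun v => ?_) ((s1.mul_left c).add (s2.mul_left d))
        have hw := wt_nonneg v x
        split_ifs with hv
        · have := mul_le_mul_of_nonneg_right (hP v hv) hw
          linarith
        · positivity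
    _ = c * ∑' v : PL S, ‖spin (a v) (b v) 1‖ ^ 2 * wt v x +
          d * ∑' v : PL S, ‖std (a v) (b v) 1 + δ‖ ^ 2 * wt v x := by
        rw [(s1.mul_left c).tsum_add (s2.mul_left d), tsum_mul_left, tsum_mul_left]
    _ ≤ c * (((1 : ℕ) : ℝ) * Lam x + C1) + d * ((1 + δ ^ 2) * Lam x + C2) :=
        add_le_add (mul_le_mul_of_nonneg_left h1 hc) (mul_le_mul_of_nonneg_left h2 hd)
    _ = (c + d * (1 + δ ^ 2)) * Lam x + (c * C1 + d * C2) := by push_cast; ring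
    _ ≤ (c + d * (1 + δ ^ 2)) * (Z S x + D) + (c * C1 + d * C2) := by
        have : (0 : ℝ) ≤ c + d * (1 + δ ^ 2) := by positivity
        have := mul_le_mul_of_nonneg_left (by linarith : Lam x ≤ Z S x + D) this
        linarith
    _ = (c + d * (1 + δ ^ 2)) * Z S x + (c * (D + C1) + d * ((1 + δ ^ 2) * D + C2)) := by ring
    _ ≤ _ := by linarith

theorem main_real (h : GenericPGSp4 a b) {T x : ℝ} (hT : 2 ≤ T) (h1 : -(T ^ 2 + 1) ≤ x) (h2 : x < T ^ 2 - 1) :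
    upperDensity (fun v => ((a v).im = 0 ∧ ‖a v‖ ≠ 1 ∧ T ≤ ‖a v‖ + ‖a v‖⁻¹) ∨
        ((b v).im = 0 ∧ ‖b v‖ ≠ 1 ∧ T ≤ ‖b v‖ + ‖b v‖⁻¹)) ≤
      ((T + √(1 + x ^ 2)) / (T ^ 2 - 1 - x)) ^ 2 := by
  have hD : 0 < T ^ 2 - 1 - x := by linarith
  have hq0 : 0 < 1 + x ^ 2 := by positivity
  have hq : 0 < √(1 + x ^ 2) := Real.sqrt_pos.2 hq0
  have hq2 : √(1 + x ^ 2) ^ 2 = 1 + x ^ 2 := Real.sq_sqrt hq0.le
  set q := √(1 + x ^ 2) with hqdef
  refine upper_le fun ε hε => ?_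
  have := share_le h (P := fun v => ((a v).im = 0 ∧ ‖a v‖ ≠ 1 ∧ T ≤ ‖a v‖ + ‖a v‖⁻¹) ∨
        ((b v).im = 0 ∧ ‖b v‖ ≠ 1 ∧ T ≤ ‖b v‖ + ‖b v‖⁻¹))
    (c := T * (T + q) / (T ^ 2 - 1 - x) ^ 2) (d := (T + q) / (q * (T ^ 2 - 1 - x) ^ 2)) x
    (by positivity) (by positivity)
    (fun v hv => by
      have key : T ^ 2 - 1 - x ≤ T * ‖spin (a v) (b v) 1‖ + ‖std (a v) (b v) 1 + x‖ := by
        obtain ⟨ha0, hb0⟩ := h.ne_zero v
        rw [spin_one, std_one ha0 hb0]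
        rcases hv with ⟨him, _, hge⟩ | ⟨him, _, hge⟩
        · obtain ⟨r, hr, hr2⟩ := real_param him
          have := real_large (A := a v + (a v)⁻¹) (B := b v + (b v)⁻¹) (κ := 1 + x) hr hT
            (hr2 ▸ hge) (by linarith)
          have e : (a v + (a v)⁻¹) * (b v + (b v)⁻¹) + ((1 + x : ℝ) : ℂ) =
              1 + (a v + (a v)⁻¹) * (b v + (b v)⁻¹) + x := by push_cast; ring
          rw [e] at this
          linarith
        · obtain ⟨r, hr, hr2⟩ := real_param him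
          have := real_large (A := b v + (b v)⁻¹) (B := a v + (a v)⁻¹) (κ := 1 + x) hr hT
            (hr2 ▸ hge) (by linarith)
          have e : (b v + (b v)⁻¹) * (a v + (a v)⁻¹) + ((1 + x : ℝ) : ℂ) =
              1 + (a v + (a v)⁻¹) * (b v + (b v)⁻¹) + x := by push_cast; ring
          rw [e, add_comm (b v + (b v)⁻¹) (a v + (a v)⁻¹)] at this
          linarith
      set u := ‖spin (a v) (b v) 1‖
      set y := ‖std (a v) (b v) 1 + x‖
      have e2 : T * (T + q) / (T ^ 2 - 1 - x) ^ 2 * u ^ 2 + (T + q) / (q * (T ^ 2 - 1 - x) ^ 2) * y ^ 2 =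
          (q * (T * u + y) ^ 2 + T * (y - q * u) ^ 2) / (q * (T ^ 2 - 1 - x) ^ 2) := by
        field_simp
        ring
      rw [e2, one_le_div (by positivity)]
      have e3 : (T ^ 2 - 1 - x) ^ 2 ≤ (T * u + y) ^ 2 := pow_le_pow_left₀ hD.le key 2
      have e4 : 0 ≤ T * (y - q * u) ^ 2 := by positivity
      nlinarith) hε
  filter_upwards [this] with y hy
  refine hy.trans (le_of_eq ?_)
  rw [← hq2]
  field_simp

theorem main_prod (h : GenericPGSp4 a b) {Y : ℝ} (hY : 2 ≤ Y) {P : PL S → Prop}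
    (hP : ∀ v, P v → Y ≤ ‖(a v + (a v)⁻¹) * (b v + (b v)⁻¹)‖) :
    upperDensity P ≤ 1 / (1 + (Y - 1) ^ 2) := by
  have ht : 1 ≤ Y - 1 := by linarith
  set t := Y - 1 with htdef
  have ht0 : 0 < t := by linarith
  refine upper_le fun ε hε => ?_
  have := share_le h (P := P)
    (c := 0) (d := t ^ 2 / (t ^ 2 + 1) ^ 2) (-(1 / t)) le_rfl (by positivity)
    (fun v hv => by
      replace hv := hP v hv
      obtain ⟨ha0, hb0⟩ := h.ne_zero v
      obtain ⟨τ, hτ⟩ := h.unitary v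
      obtain ⟨p, hp⟩ := prod_real (b := a v) (c := b v) (τ := τ) hτ
      rw [std_one ha0 hb0, hp]
      rw [hp, Complex.norm_real, Real.norm_eq_abs] at hv
      have e1 : (1 : ℂ) + (p : ℂ) + ((-(1 / t) : ℝ) : ℂ) = ((1 + p - 1 / t : ℝ) : ℂ) := by
        push_cast; ring
      rw [e1, Complex.norm_real, Real.norm_eq_abs, sq_abs, zero_mul, zero_add]
      have e2 : t ^ 2 / (t ^ 2 + 1) ^ 2 * (1 + p - 1 / t) ^ 2 = ((t * (1 + p) - 1) / (t ^ 2 + 1)) ^ 2 := by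
        field_simp
      rw [e2, one_le_sq_iff_one_le_abs, abs_div, abs_of_pos (by positivity : 0 < t ^ 2 + 1),
        one_le_div (by positivity)]
      rcases le_abs.1 hv with h3 | h3
      · refine le_trans ?_ (le_abs_self _)
        nlinarith
      · refine le_trans ?_ (neg_le_abs _)
        nlinarith) hε
  filter_upwards [this] with y hy
  refine hy.trans (le_of_eq ?_)
  field_simp
  ring

theorem main_both (h : GenericPGSp4 a b) {T : ℝ} (hT : 2 ≤ T) :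
    upperDensity (fun v => ((a v).im = 0 ∧ ‖a v‖ ≠ 1 ∧ T ≤ ‖a v‖ + ‖a v‖⁻¹) ∧
        ((b v).im = 0 ∧ ‖b v‖ ≠ 1 ∧ T ≤ ‖b v‖ + ‖b v‖⁻¹)) ≤ 1 / (1 + (T ^ 2 - 1) ^ 2) := by
  refine main_prod h (by nlinarith) fun v hv => ?_
  obtain ⟨⟨i1, _, j1⟩, i2, _, j2⟩ := hv
  obtain ⟨r, hr, hr2⟩ := real_param i1
  obtain ⟨y, hy, hy2⟩ := real_param i2
  rw [hr, hy, norm_mul, Complex.norm_real, Complex.norm_real, Real.norm_eq_abs, Real.norm_eq_abs, hr2, hy2]
  nlinarith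

lemma not_real {z : ℂ} (hz : z ≠ 0) (him : z.im ≠ 0) (hn : ‖z‖ ≠ 1) :
    (starRingEnd ℂ) (z + z⁻¹) ≠ z + z⁻¹ := by
  rw [Ne, Complex.conj_eq_iff_im, Complex.add_im, Complex.inv_im]
  intro h
  have h0 : Complex.normSq z ≠ 0 := by simpa using hz
  have h1 : z.im * (Complex.normSq z - 1) = 0 := by
    field_simp at h
    linear_combination h
  rcases mul_eq_zero.1 h1 with h2 | h2
  · exact him h2
  · rw [Complex.normSq_eq_norm_sq] at h2
    have h3 : (‖z‖ - 1) * (‖z‖ + 1) = 0 := by linear_combination h2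
    rcases mul_eq_zero.1 h3 with h4 | h4
    · exact hn (by linarith)
    · have := norm_nonneg z
      linarith

lemma norm_ge {z : ℂ} (hz : z ≠ 0) : (‖z‖ + ‖z‖⁻¹) ^ 2 - 4 ≤ ‖z + z⁻¹‖ ^ 2 := by
  have h0 : 0 < ‖z‖ := norm_pos_iff.2 hz
  have h1 : |‖z‖ - ‖z‖⁻¹| ≤ ‖z + z⁻¹‖ := by
    have := abs_norm_sub_norm_le z (-z⁻¹)
    rw [norm_neg, norm_inv, sub_neg_eq_add] at this
    exact this
  have h2 : (‖z‖ + ‖z‖⁻¹) ^ 2 - 4 = |‖z‖ - ‖z‖⁻¹| ^ 2 := by
    rw [sq_abs]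
    field_simp
    ring
  rw [h2]
  exact pow_le_pow_left₀ (abs_nonneg _) h1 2

theorem main_complex (h : GenericPGSp4 a b) {T : ℝ} (hT : 2 ≤ T) :
    upperDensity (fun v => ((a v).im ≠ 0 ∧ ‖a v‖ ≠ 1 ∧ T ≤ ‖a v‖ + ‖a v‖⁻¹) ∨
        ((b v).im ≠ 0 ∧ ‖b v‖ ≠ 1 ∧ T ≤ ‖b v‖ + ‖b v‖⁻¹)) ≤ 1 / (1 + (T ^ 2 - 3) ^ 2) := by
  have hw : 1 ≤ T ^ 2 - 3 := by nlinarith
  set w := T ^ 2 - 3 with hwdef
  have hw0 : 0 < w := by linarith
  refine upper_le fun ε hε => ?_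
  have := share_le h (P := fun v => ((a v).im ≠ 0 ∧ ‖a v‖ ≠ 1 ∧ T ≤ ‖a v‖ + ‖a v‖⁻¹) ∨
        ((b v).im ≠ 0 ∧ ‖b v‖ ≠ 1 ∧ T ≤ ‖b v‖ + ‖b v‖⁻¹))
    (c := 0) (d := w ^ 2 / (w ^ 2 + 1) ^ 2) (1 / w) le_rfl (by positivity)
    (fun v hv => by
      obtain ⟨ha0, hb0⟩ := h.ne_zero v
      obtain ⟨τ, hτ⟩ := h.unitary v
      rw [std_one ha0 hb0]
      have hc : ∃ p : ℝ, (a v + (a v)⁻¹) * (b v + (b v)⁻¹) = p ∧ w - 1 ≤ p := by
        rcases hv with ⟨him, hn, hge⟩ | ⟨him, hn, hge⟩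
        · rcases dich (b := a v) (c := b v) hτ with ⟨h1, _⟩ | h1
          · exact absurd h1 (not_real ha0 him hn)
          · refine ⟨‖a v + (a v)⁻¹‖ ^ 2, ?_, ?_⟩
            · rw [← h1, Complex.mul_conj, Complex.normSq_eq_norm_sq]
            · have := norm_ge ha0
              nlinarith
        · rcases dich (b := a v) (c := b v) hτ with ⟨_, h1⟩ | h1
          · exact absurd h1 (not_real hb0 him hn)
          · have h2 : (starRingEnd ℂ) (b v + (b v)⁻¹) = a v + (a v)⁻¹ := by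
              rw [← h1, Complex.conj_conj]
            refine ⟨‖b v + (b v)⁻¹‖ ^ 2, ?_, ?_⟩
            · rw [← h2, mul_comm, Complex.mul_conj, Complex.normSq_eq_norm_sq]
            · have := norm_ge hb0
              nlinarith
      obtain ⟨p, hp, hpw⟩ := hc
      have e1 : (1 : ℂ) + (p : ℂ) + ((1 / w : ℝ) : ℂ) = ((1 + p + 1 / w : ℝ) : ℂ) := by
        push_cast; ring
      rw [hp, e1, Complex.norm_real, Real.norm_eq_abs, sq_abs, zero_mul, zero_add]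
      have e2 : w ^ 2 / (w ^ 2 + 1) ^ 2 * (1 + p + 1 / w) ^ 2 = ((w * (1 + p) + 1) / (w ^ 2 + 1)) ^ 2 := by
        field_simp
      rw [e2, one_le_sq_iff_one_le_abs, abs_div, abs_of_pos (by positivity : 0 < w ^ 2 + 1),
        one_le_div (by positivity)]
      refine le_trans ?_ (le_abs_self _)
      nlinarith) hε
  filter_upwards [this] with y hy
  refine hy.trans (le_of_eq ?_)
  field_simp
  ring

theorem main_opposite (h : GenericPGSp4 a b) :
    1 / 2 ≤ lowerDensity (fun v => ∃ x y : ℝ, a v + (a v)⁻¹ = x ∧ b v + (b v)⁻¹ = y ∧ -4 < x * y ∧ x * y < 0) := by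
  have : (1 : ℝ) - 1 / 2 ≤ lowerDensity (fun v => ∃ x y : ℝ, a v + (a v)⁻¹ = x ∧ b v + (b v)⁻¹ = y ∧
      -4 < x * y ∧ x * y < 0) := by
    refine lower_ge fun ε hε => ?_
    have := share_le h (P := fun v => ¬ ∃ x y : ℝ, a v + (a v)⁻¹ = x ∧ b v + (b v)⁻¹ = y ∧
      -4 < x * y ∧ x * y < 0) (c := 0) (d := 1 / 4) 1 le_rfl (by norm_num)
      (fun v hv => by
        obtain ⟨ha0, hb0⟩ := h.ne_zero v
        obtain ⟨τ, hτ⟩ := h.unitary v
        have h2 : 2 ≤ ‖std (a v) (b v) 1 + (1 : ℝ)‖ := by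
          by_contra hcon
          rw [not_le] at hcon
          refine hv (symplectic ha0 hb0 hτ ?_)
          have e : ext ![a v, b v, (b v)⁻¹, (a v)⁻¹] 1 = std (a v) (b v) 1 + (1 : ℝ) := by
            rw [std_one ha0 hb0, ext_one, Fin.sum_univ_four, Fin.sum_univ_four]
            simp only [Matrix.cons_val_zero, Matrix.cons_val_one, Matrix.cons_val]
            push_cast
            field_simp
            ring
          rw [e]
          exact hcon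
        nlinarith) hε
    filter_upwards [this] with x hx
    norm_num at hx ⊢
    linarith
  linarith

end Pool.Agent.N859.P4
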