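import Pool.Agent.N859.G4.Defs

/-! Satake parameters of generic cusp forms on `PGSp(4)` over a number field: definitions. -/

set_option autoImplicit false

namespace Pool.Agent.N859.P4

open NumberField IsDedekindDomain Filter Topology
open Pool.Agent.N859.G4 (PL Nm RankinSelberg)

variable {K : Type*} [Field K] [NumberField K]

/-- the trace of the `k`-th power of `g = diag(a, b, 1/b, 1/a)` -/
noncomputable def spin (a b : ℂ) (k : ℕ) : ℂ := a ^ k + b ^ k + (b⁻¹) ^ k + (a⁻¹) ^ k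

/-- the trace of `g^k` in the five dimensional representation of `Sp_4(ℂ)`; its eigenvalues at `g` are
`1, a b, a / b, b / a, 1 / (a b)` -/
noncomputable def std (a b : ℂ) (k : ℕ) : ℂ :=
  1 + (a * b) ^ k + (a / b) ^ k + (b / a) ^ k + ((a * b)⁻¹) ^ k

/-- `log L^S(s) = ∑_{v ∉ S} ∑_{k ≥ 1} t_v(k) / k · (N v)^{-ks}` for an automorphic representation, unramified outside
`S`, with `t v k` the trace of the `k`-th power of its Satake parameter at `v` -/
noncomputable def logL {S : Finset (HeightOneSpectrum (𝓞 K))} (t : PL S → ℕ → ℂ) (s : ℂ) : ℂ :=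
  ∑' x : PL S × ℕ, t x.1 (x.2 + 1) / ((x.2 : ℂ) + 1) * (((Nm x.1.1 : ℕ) : ℂ) ^ (-s)) ^ (x.2 + 1)

/-- Properties of the Satake parameters `diag(a v, b v, 1 / b v, 1 / a v)`, `v ∉ S`, of a globally generic cuspidal
automorphic representation `π` of `PGSp_4` over the number field `K` whose transfers to `GL_4` (spin) and to `GL_5`
(standard) are cuspidal. -/
structure GenericPGSp4 {S : Finset (HeightOneSpectrum (𝓞 K))} (a b : PL S → ℂ) : Prop where
  /-- the Satake parameters are not zero -/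
  ne_zero : ∀ v, a v ≠ 0 ∧ b v ≠ 0
  /-- `π_v` is unitary: the eigenvalues are permuted by `z ↦ 1 / conj z` -/
  unitary : ∀ v, ∃ τ : Equiv.Perm (Fin 4), ∀ i,
    (![a v, b v, (b v)⁻¹, (a v)⁻¹] : Fin 4 → ℂ) (τ i) =
      ((starRingEnd ℂ) ((![a v, b v, (b v)⁻¹, (a v)⁻¹] : Fin 4 → ℂ) i))⁻¹
  /-- `L^S(s, π × π~)` has a simple pole at `s = 1` -/
  rsSpin : RankinSelberg (fun v => spin (a v) (b v)) 1
  /-- `L^S(s, π, std × std)` has a simple pole at `s = 1` -/
  rsStd : RankinSelberg (fun v => std (a v) (b v)) 1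
  /-- `L^S(s, π, std)` converges absolutely for `Re s > 1` -/
  summable : ∀ σ : ℝ, 1 < σ → Summable fun x : PL S × ℕ =>
    ‖std (a x.1) (b x.1) (x.2 + 1)‖ / ((x.2 : ℝ) + 1) * (((Nm x.1.1 : ℕ) : ℝ) ^ (-σ)) ^ (x.2 + 1)
  /-- `L^S(s, π, std)` is analytic and not zero at `s = 1` -/
  stdL : ∃ A : ℂ → ℂ, AnalyticAt ℂ A 1 ∧ A 1 ≠ 0 ∧
    ∀ s : ℂ, 1 < s.re → A s = Complex.exp (logL (fun v => std (a v) (b v)) s)

end Pool.Agent.N859.P4
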